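import Pool.Agent.N325.DD.Main
import Pool.Agent.N297.DD.A
import Pool.Agent.N545.DD.B
import Pool.Agent.N751.DD.C
import Pool.Agent.N2.DD.D
import Pool.Agent.N82.DD.E
import Pool.Agent.N885.DD.F
import Pool.Agent.N325.DD.LBMain
import Pool.Agent.N325.DD.Tab8
import Pool.Agent.N152.DD.LA
import Pool.Agent.N627.DD.LC
import Pool.Agent.N170.DD.LD
import Pool.Agent.N325.DD.UBMain
import Pool.Agent.N325.DD.TabU
import Pool.Agent.N67.DD.UA
import Pool.Agent.N555.DD.UG
import Pool.Agent.N519.DD.UC
import Pool.Agent.N75.DD.UD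
import Pool.Agent.N285.DD.UE

/-!
# Sets in which no element divides two others: the limit of `f(n) / n`

`f n` is the largest cardinality of a subset of `[1, n]` in which no element divides two other
elements.  We prove that `f(n) / n` converges to a real number `α` with `0.6729 < α < 0.67317`, and
we bound `α` from both sides by explicit finite sums whose difference can be made as small as one
wants.

* The elements of `(n / K, n]` fall into classes `m * s`, where all prime factors of `m` are at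
  least `K` and all prime factors of `s` are less than `K`; divisibility only occurs inside a
  class, and the class of `m` only depends on `⌊n / m⌋`.
* Lower bound: `K = 8`; in the class of `m`, `q = ⌊n / m⌋`, one starts with the `s` with
  `q / 3 < s ≤ q`, and for `q < 10 ^ 5` one removes and adds the elements listed in a table.
* Upper bound: the classes `m * 2 ^ i * 3 ^ j`, `m` coprime to `6`.  The largest admissible subset
  of a class is the largest set of cells `(i, j)`, `2 ^ i * 3 ^ j ≤ q`, in which no cell is below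
  two others; it is computed exactly by a recursion over the columns for `q < 3 ^ 12`, and bounded
  by `2 (log_3 q + 1)` for larger `q`.
-/

set_option autoImplicit false

namespace Pool.Agent.Results.MP_69499c_nt.LimitValue

open Filter Topology

/-- No element divides two other elements. -/
def Adm (A : Finset ℕ) : Prop :=
  ∀ a ∈ A, ∀ b ∈ A, ∀ c ∈ A, a ≠ b → a ≠ c → b ≠ c → ¬ (a ∣ b ∧ a ∣ c)

open Classical in
/-- The largest cardinality of an admissible subset of the finite set `S`. -/
noncomputable def mx (S : Finset ℕ) : ℕ := (S.powerset.filter Adm).sup Finset.card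

/-- `f(n)`: the largest cardinality of an admissible subset of `[1, n]`. -/
noncomputable def f (n : ℕ) : ℕ := mx (Finset.Icc 1 n)

open Classical in
/-- The integers of `[1, X]` all of whose prime factors are less than `K`. -/
noncomputable def W (K X : ℕ) : Finset ℕ :=
  (Finset.Icc 1 X).filter (fun s => ∀ p : ℕ, p.Prime → p ∣ s → p < K)

/-- `g(K, X, q)`: the largest cardinality of an admissible subset of the integers `s` of `[1, X]`
with all prime factors less than `K` and `q / K < s ≤ q`. -/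
noncomputable def g (K X q : ℕ) : ℕ := mx ((W K X).filter (fun s => s ≤ q ∧ q < K * s))

/-- The density `∏_{p < K} (1 - 1 / p)` of the integers without prime factor less than `K`. -/
noncomputable def kap (K : ℕ) : ℝ := ∏ p ∈ Nat.primesBelow K, (1 - 1 / (p : ℝ))

/-- The approximation `L(K, X)` of the limit: an explicit rational number. -/
noncomputable def L (K X : ℕ) : ℝ :=
  kap K * ∑ q ∈ Finset.Icc 1 (K * X), (g K X q : ℝ) / ((q : ℝ) * (q + 1))

/-- The error term `ε(K, X)`: an explicit rational number. -/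
noncomputable def eps (K X : ℕ) : ℝ := 1 - kap K * ∑ s ∈ W K X, 1 / (s : ℝ)

/-- The lower bound. -/
theorem low (α : ℝ)
    (hα : Tendsto (fun n : ℕ => (Pool.Agent.N325.DD.f n : ℝ) / n) atTop (𝓝 α)) :
    (0.6729 : ℝ) < α := by
  have hN : (210 ^ 17 : ℕ) ≠ 0 := by positivity
  have hNp : ∀ p : ℕ, p.Prime → p ∣ 210 ^ 17 → p < 8 := by
    intro p hp h
    have h1 : p ∣ 210 := hp.dvd_of_dvd_pow h
    have h2 : p ∣ 6 * (5 * 7) := by norm_num; exact h1
    rcases (Nat.Prime.dvd_mul hp).1 h2 with h3 | h3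
    · have := Nat.le_of_dvd (by norm_num) h3; omega
    · rcases (Nat.Prime.dvd_mul hp).1 h3 with h4 | h4
      · have := Nat.le_of_dvd (by norm_num) h4; omega
      · have := Nat.le_of_dvd (by norm_num) h4; omega
  have hchk : Pool.Agent.N325.DD.chkT 8 (210 ^ 17) 1 Pool.Agent.N325.DD.tab8 = true :=
    Pool.Agent.N325.DD.tab8_chk
  have hlow := Pool.Agent.N325.DD.lower_bound Pool.Agent.N297.DD.rough_density
    (fun K X hK g hg hA => Pool.Agent.N325.DD.sum_lim K X hK g hg hA)
    (fun K X n hK => Pool.Agent.N751.DD.lower K X n hK)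
    (fun K n hK => Pool.Agent.N627.DD.base_sum K n hK)
    8 1000000000000 (by norm_num) Pool.Agent.N325.DD.tab8
    (fun n q hq => Pool.Agent.N325.DD.table_ok 8 (210 ^ 17)
      (fun n q hq => Pool.Agent.N152.DD.base_ok 8 n q (by norm_num) hq)
      (fun t ht n q h1 h2 h3 => Pool.Agent.N152.DD.ent_ok 8 (210 ^ 17) (by norm_num) hN hNp t ht n q h1 h2 h3)
      Pool.Agent.N325.DD.tab8 1 hchk n q hq)
    (Pool.Agent.N325.DD.table_val 8 (210 ^ 17) (by norm_num) 1000000000000 (by norm_num)
      Pool.Agent.N325.DD.tab8 1 le_rfl hchk)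
    α hα
  rw [Pool.Agent.N325.DD.kap_eight] at hlow
  have hv : (27362411005 : ℝ) ≤ ((Pool.Agent.N325.DD.vT 1000000000000 Pool.Agent.N325.DD.tab8 : ℕ) : ℝ) := by
    exact_mod_cast Pool.Agent.N325.DD.tab8_val
  have hα' : (0.6729 : ℝ) < α := by
    have h1 : (27362411005 : ℝ) / ((1000000000000 : ℕ) : ℝ) ≤
        ((Pool.Agent.N325.DD.vT 1000000000000 Pool.Agent.N325.DD.tab8 : ℕ) : ℝ) /
          ((1000000000000 : ℕ) : ℝ) :=
      div_le_div_of_nonneg_right hv (Nat.cast_nonneg _)
    have h2 : (0.6729 : ℝ) < 2 / 3 + 8 / 35 * ((27362411005 : ℝ) / ((1000000000000 : ℕ) : ℝ)) := by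
      norm_num
    linarith
  exact hα'

/-- The upper bound. -/
theorem up (α : ℝ)
    (hα : Tendsto (fun n : ℕ => (Pool.Agent.N325.DD.f n : ℝ) / n) atTop (𝓝 α)) :
    α < 0.67317 := by
  have hb : (531441 : ℕ) = 3 ^ 12 := by norm_num
  have hchk : Pool.Agent.N325.DD.chkUT 1 (3 ^ 12) Pool.Agent.N325.DD.tabU = true := by
    rw [← hb]; exact Pool.Agent.N325.DD.tabU_chk
  have hup := Pool.Agent.N325.DD.upper_bound Pool.Agent.N297.DD.rough_density
    (fun K X hK g hg hA => Pool.Agent.N325.DD.sum_lim K X hK g hg hA)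
    (fun n => Pool.Agent.N67.DD.class_upper n)
    (fun q hq => Pool.Agent.N75.DD.G_log q hq)
    (fun k0 n => Pool.Agent.N75.DD.tail k0 n)
    (Pool.Agent.N325.DD.gU Pool.Agent.N325.DD.tabU) 12
    (((Pool.Agent.N325.DD.vU 1000000000000 Pool.Agent.N325.DD.tabU : ℕ) : ℝ) /
      ((1000000000000 : ℕ) : ℝ))
    (fun q h1 h2 => Pool.Agent.N285.DD.tableU_ok
      (fun hi hs h0 h1 q hq => Pool.Agent.N555.DD.grid hi hs h0 h1 q hq)
      (fun hs hl hh s => Pool.Agent.N519.DD.V_le_dg hs hl hh s)
      Pool.Agent.N325.DD.tabU 1 (3 ^ 12) hchk q h1 h2)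
    (fun q hq => Pool.Agent.N285.DD.gU_zero Pool.Agent.N325.DD.tabU 1 (3 ^ 12) hchk q hq)
    (fun X => Pool.Agent.N285.DD.tableU_val 1000000000000 (by norm_num)
      Pool.Agent.N325.DD.tabU 1 (3 ^ 12) le_rfl hchk X)
    α hα
  have hv : ((Pool.Agent.N325.DD.vU 1000000000000 Pool.Agent.N325.DD.tabU : ℕ) : ℝ) ≤
      2019434480219 := by
    exact_mod_cast Pool.Agent.N325.DD.tabU_val
  have hα' : α < 0.67317 := by
    have h1 : ((Pool.Agent.N325.DD.vU 1000000000000 Pool.Agent.N325.DD.tabU : ℕ) : ℝ) /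
        ((1000000000000 : ℕ) : ℝ) ≤ 2019434480219 / ((1000000000000 : ℕ) : ℝ) :=
      div_le_div_of_nonneg_right hv (Nat.cast_nonneg _)
    have h2 : 1 / 3 * ((2019434480219 : ℝ) / ((1000000000000 : ℕ) : ℝ)) +
        2 * (((12 : ℕ) : ℝ) + 1) * (1 / 3 / 3 ^ 12) + 1 / 3 ^ 12 < 0.67317 := by
      norm_num
    linarith
  exact hα'

/-- `f(n) / n` converges to a real number `α` with `0.6729 < α < 0.67317`; for all `K ≥ 2` and
all `X`, `L(K, X) ≤ α ≤ L(K, X) + 1 / K + ε(K, X)`, and `ε(K, X) → 0` as `X → ∞` for every `K`. -/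
theorem result :
    ∃ α : ℝ, Tendsto (fun n : ℕ => (f n : ℝ) / n) atTop (𝓝 α) ∧
      0.6729 < α ∧ α < 0.67317 ∧
      (∀ K X : ℕ, 2 ≤ K → L K X ≤ α ∧ α ≤ L K X + 1 / K + eps K X) ∧
      (∀ K : ℕ, Tendsto (fun X : ℕ => eps K X) atTop (𝓝 0)) := by
  obtain ⟨α, hα, h1, h2⟩ :=
    Pool.Agent.N325.DD.main Pool.Agent.N297.DD.rough_density
      (fun K X hK g hg hA => Pool.Agent.N325.DD.sum_lim K X hK g hg hA)
      (fun K X n hK => Pool.Agent.N751.DD.lower K X n hK)
      (fun K X n hK => Pool.Agent.N325.DD.upper K X n hK)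
      (fun K X hA => Pool.Agent.N82.DD.bad_lim K X hA)
      (fun K => Pool.Agent.N885.DD.eps_lim K)
  exact ⟨α, hα, low α hα, up α hα, h1, h2⟩

end Pool.Agent.Results.MP_69499c_nt.LimitValue
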